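import Mathlib
import Pool.Agent.Q64.CT.WDefs

/-!
# Products of abelian varieties with varieties whose Frobenius eigenvalues have a given property: the
situation
-/

set_option autoImplicit false

open CategoryTheory AlgebraicGeometry

universe u v w

namespace Pool.Agent.Q64.P

open Polynomial Pool.Agent.H914 Pool.Agent.H914.VarClass Pool.Agent.H914.VarClass.Obj
  Pool.Agent.W492.BB Pool.Agent.W484.CK Pool.Agent.Y1.CT Pool.Agent.Y122.NCP Pool.Agent.Q64.CT

section

variable {k : Type u} [Field k] {𝒱 : VarClass k} {C : TheoryData.{u, v, 0} 𝒱 ℚ} {F : Type w}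
  [Field F] (H : WeilTheoryData.{u, v, w} C F) {A Z : 𝒱.Obj}

/-- The eigenvalues of `π` on the cohomology of `Z` are roots of a nonzero rational polynomial with
the property `P`. -/
def EigenvaluesIn [CharZero F] (P : ℚ[X] → Prop) (π : Z ⟶ Z) : Prop :=
  ∃ χ : ℚ[X], χ ≠ 0 ∧ (∀ (ρ : F) (v : H.A Z), v ≠ 0 → H.up π v = ρ • v → aeval ρ χ = 0) ∧ P χ

/-- `πA` is the Frobenius endomorphism of an abelian variety `A` over the field with `q ^ s`
elements, isogenous to a product of powers of abelian varieties coming from the field with `q`
elements with characteristic polynomials `f i`; `Z` is any variety over the field with `q ^ s`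
elements, such that the eigenvalues of its Frobenius endomorphism `πZ` on the cohomology are roots of
a polynomial with the property `P`, and such that homologically trivial self-correspondences of
`A × Z` of degree zero are nilpotent. -/
structure IsNilPairFor [CharZero F] (P : ℚ[X] → Prop) (q s : ℕ) {I : Type} (f : I → ℤ[X])
    (πA : A ⟶ A) (πZ : Z ⟶ Z) : Prop where
  standard : IsStandard H
  pos : 0 < s
  abelian : IsAbelian H πA q s f
  eigen : EigenvaluesIn H P πZ
  nilpotence : Nilpotence H (A.prod Z)

/-- The same without the nilpotence. -/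
structure IsPairFor [CharZero F] (P : ℚ[X] → Prop) (q s : ℕ) {I : Type} (f : I → ℤ[X])
    (πA : A ⟶ A) (πZ : Z ⟶ Z) : Prop where
  standard : IsStandard H
  pos : 0 < s
  abelian : IsAbelian H πA q s f
  eigen : EigenvaluesIn H P πZ

end


end Pool.Agent.Q64.P
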