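import Mathlib
import Pool.Agent.Q64.CT.RDefs
import Pool.Agent.Q64.P.Sit

/-!
# Products of abelian varieties with varieties whose Frobenius eigenvalues have a given property:
the motivic pairings
-/

set_option autoImplicit false

open CategoryTheory AlgebraicGeometry

namespace Pool.Agent.Q64.P

open Polynomial Pool.Agent.H914 Pool.Agent.H914.VarClass Pool.Agent.H914.VarClass.Obj
  Pool.Agent.W492.BB Pool.Agent.W484.CK Pool.Agent.Y1.CT Pool.Agent.Y122.NCP Pool.Agent.Q64.CT

/-- `PairingReduces P q f`: the following holds for the Chow groups `C` with rational coefficients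
of all classes `𝒱` of varieties over fields `k` (finite, in the intended use), every Weil cohomology
theory `H` with coefficients in an algebraically closed field `F` of characteristic zero and all
`A`, `Z` as in `IsNilPairFor`, where the Frobenius endomorphism `πA × πZ` of `A × Z` acts on its Chow
groups in the usual way, for the higher Chow groups `T m`, `m ≥ 0`, and for all `n`: the statement
`BP(n)` holds for `A × Z` if and only if `BP(l)` holds for `Z` for all `l` with
`n - dim A ≤ l ≤ n`. -/
def PairingReduces (P : ℚ[X] → Prop) (q : ℕ) {I : Type} (f : I → ℤ[X]) :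
    Prop :=
  ∀ (k : Type) [Field k] (𝒱 : VarClass k) (C : TheoryData.{0, 0, 0} 𝒱 ℚ) [IsChow C]
    (F : Type) [Field F] [IsAlgClosed F] [CharZero F] (H : WeilTheoryData.{0, 0, 0} C F)
    [IsWeil H] (s : ℕ) (A Z : 𝒱.Obj) (πA : A ⟶ A) (πZ : Z ⟶ Z),
      IsNilPairFor H P q s f πA πZ → IsFrobenius C (prodMap πA πZ) (q ^ s) →
        ∀ T : ℕ → MotivicData C, IsHigherChow T (prodMap πA πZ) (q ^ s) → ∀ n : ℤ,
          PairingIn T (A.prod Z) n ↔ ∀ l : ℤ, n - A.dim ≤ l → l ≤ n → PairingIn T Z l

end Pool.Agent.Q64.P
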