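import Mathlib
import Pool.Agent.Q64.CT.RDefs
import Pool.Agent.Q64.P.Sit
import Pool.Agent.Q64.P.PairingDefs

/-!
# Products of abelian varieties with varieties whose Frobenius eigenvalues have a given property:
definitions
-/

set_option autoImplicit false

open CategoryTheory AlgebraicGeometry

namespace Pool.Agent.Q64.P

open Polynomial Pool.Agent.H914 Pool.Agent.H914.VarClass Pool.Agent.H914.VarClass.Obj
  Pool.Agent.W492.BB Pool.Agent.W484.CK Pool.Agent.Y1.CT Pool.Agent.Y122.NCP Pool.Agent.Q64.CT

/-- `NCParshinReduces P q f`: the following holds for the Chow groups `C` with rational coefficients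
of all classes `𝒱` of varieties over fields `k` (finite, in the intended use), every Weil cohomology
theory `H` with coefficients in an algebraically closed field `F` of characteristic zero and all
`A`, `Z` as in `IsNilPairFor`. There are products `D j` of `deg j` divisor classes on `A`, finitely
many, such that for the rational `K`-groups `T n = K_n`, `n ≥ 0`, and all direct summands `(Z, e)` of
the noncommutative motive of `Z`: the Kunneth formula `K_n(A × Z, 1 × e)_ℚ = ⨁ D j × K_n(Z, e)_ℚ`
holds for all `n ≥ 0`, and the noncommutative conjecture of Parshin holds for `(A × Z, 1 × e)` if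
and only if it holds for `(Z, e)`. -/
def NCParshinReduces (P : ℚ[X] → Prop) (q : ℕ) {I : Type} (f : I → ℤ[X]) :
    Prop :=
  ∀ (k : Type) [Field k] (𝒱 : VarClass k) (C : TheoryData.{0, 0, 0} 𝒱 ℚ) [IsChow C],
    IsoInvariant C → ∀ (F : Type) [Field F] [IsAlgClosed F] [CharZero F]
    (H : WeilTheoryData.{0, 0, 0} C F) [IsWeil H] (s : ℕ) (A Z : 𝒱.Obj) (πA : A ⟶ A)
    (πZ : Z ⟶ Z), IsNilPairFor H P q s f πA πZ →
      ∃ (J : Type) (_ : Fintype J) (deg : J → ℕ) (D : J → C.A A),
        (∀ j, DivisorProduct C (deg j) (D j)) ∧ ∀ T : ℕ → MotivicData C,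
          IsKTheory T (prodMap πA πZ) (q ^ s) → ∀ e : C.A (Z.prod Z), IsIdempotent C e →
            (∀ n, (T n).KunnethFor A e D) ∧ (NCParshin T (relative C A e) ↔ NCParshin T e)

/-- `ParshinReduces P q f`: for the Chow groups `C` with rational coefficients of all classes `𝒱` of
varieties over fields `k` (finite, in the intended use), every Weil cohomology theory `H` with
coefficients in an algebraically closed field `F` of characteristic zero and all `A`, `Z` as in
`IsNilPairFor` there are products `D j` of `deg j` divisor classes on `A`, finitely many, such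
that the following holds for all `T` like the rational `K`-groups `K_m`, `m` arbitrary, for which
the Frobenius endomorphism of `A × Z` acts on `T^i(A × Z)` as multiplication by `q ^ (s i)`: one has
`T^i(A × Z) = ⨁ D j × T^(i - deg j)(Z)` for all `i`, and `T(A × Z) = 0` if and only if
`T(Z) = 0`. -/
def ParshinReduces (P : ℚ[X] → Prop) (q : ℕ) {I : Type} (f : I → ℤ[X]) :
    Prop :=
  ∀ (k : Type) [Field k] (𝒱 : VarClass k) (C : TheoryData.{0, 0, 0} 𝒱 ℚ) [IsChow C]
    (F : Type) [Field F] [IsAlgClosed F] [CharZero F] (H : WeilTheoryData.{0, 0, 0} C F)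
    [IsWeil H] (s : ℕ) (A Z : 𝒱.Obj) (πA : A ⟶ A) (πZ : Z ⟶ Z),
      IsNilPairFor H P q s f πA πZ →
        ∃ (J : Type) (_ : Fintype J) (deg : J → ℕ) (D : J → C.A A),
          (∀ j, DivisorProduct C (deg j) (D j)) ∧ ∀ T : MotivicData C,
            Y159.Par.IsRationalKGroup T →
            ActsAsPower T (prodMap πA πZ) (q ^ s) → HasKunneth T A Z deg D ∧
              (Y159.Par.Parshin T (A.prod Z) ↔ Y159.Par.Parshin T Z)

/-- `WeightsReduce P q f`: for the Chow groups `C` with rational coefficients of all classes `𝒱` of
varieties over fields `k` (finite, in the intended use), every Weil cohomology theory `H` with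
coefficients in an algebraically closed field `F` of characteristic zero and all `A`, `Z` as in
`IsNilPairFor` there are products `D j` of `deg j` divisor classes on `A`, finitely many, such
that the following holds for all graded theories `T` with rational coefficients on which
correspondences act and such that the Frobenius endomorphism of `A × Z` acts on `T^i(A × Z)` as
multiplication by `q ^ (s i)`, for instance `T^i(X) = H^(2 i - m)(X, ℚ(i))` for a fixed `m`: the
Kunneth formula `T^i(A × Z) = ⨁ D j × T^(i - deg j)(Z)` holds, and for every `n` one has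
`T^i(A × Z) = 0` for all `i ≤ n` if and only if `T^i(Z) = 0` for all `i ≤ n`. -/
def WeightsReduce (P : ℚ[X] → Prop) (q : ℕ) {I : Type} (f : I → ℤ[X]) :
    Prop :=
  ∀ (k : Type) [Field k] (𝒱 : VarClass k) (C : TheoryData.{0, 0, 0} 𝒱 ℚ) [IsChow C]
    (F : Type) [Field F] [IsAlgClosed F] [CharZero F] (H : WeilTheoryData.{0, 0, 0} C F)
    [IsWeil H] (s : ℕ) (A Z : 𝒱.Obj) (πA : A ⟶ A) (πZ : Z ⟶ Z),
      IsNilPairFor H P q s f πA πZ →
        ∃ (J : Type) (_ : Fintype J) (deg : J → ℕ) (D : J → C.A A),
          (∀ j, DivisorProduct C (deg j) (D j)) ∧ ∀ T : MotivicData C, IsMotivic T →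
            ActsAsPower T (prodMap πA πZ) (q ^ s) → HasKunneth T A Z deg D ∧
              ∀ n : ℤ, T.Vanishes (A.prod Z) n ↔ T.Vanishes Z n

/-- `PerfectReduces P q f`: the following holds for the Chow groups `C` with rational coefficients of
all classes `𝒱` of varieties over fields `k` (finite, in the intended use), every Weil cohomology
theory `H` with coefficients in an algebraically closed field `F` of characteristic zero and all
`A`, `Z` as in `IsNilPairFor`, where the Frobenius endomorphism `πA × πZ` of `A × Z` acts on its Chow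
groups in the usual way. The Kunneth formula holds for the Chow groups of `A × Z`, and for every `n`
the pairing `CH^n(A × Z)_ℝ × CH^(dim A + dim Z - n)(A × Z)_ℝ → ℝ` is perfect if and only if the
pairings `CH^m(Z)_ℝ × CH^(dim Z - m)(Z)_ℝ → ℝ` with `n - dim A ≤ m ≤ n` are perfect. -/
def PerfectReduces (P : ℚ[X] → Prop) (q : ℕ) {I : Type} (f : I → ℤ[X]) :
    Prop :=
  ∀ (k : Type) [Field k] (𝒱 : VarClass k) (C : TheoryData.{0, 0, 0} 𝒱 ℚ) [IsChow C]
    (F : Type) [Field F] [IsAlgClosed F] [CharZero F] (H : WeilTheoryData.{0, 0, 0} C F)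
    [IsWeil H] (s : ℕ) (A Z : 𝒱.Obj) (πA : A ⟶ A) (πZ : Z ⟶ Z),
      IsNilPairFor H P q s f πA πZ → IsFrobenius C (prodMap πA πZ) (q ^ s) → ChowKunneth C A Z ∧
        ∀ n : ℤ, PerfectAt C (A.prod Z) n ↔ ∀ m : ℤ, n - A.dim ≤ m → m ≤ n → PerfectAt C Z m

/-- `NCNumReduces P q f`: for the Chow groups `C` with rational coefficients of all classes `𝒱` of
varieties over fields `k` (finite, in the intended use), every Weil cohomology theory `H` with
coefficients in an algebraically closed field `F` of characteristic zero and all `A`, `Z` as in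
`IsNilPairFor`, where `πA × πZ` acts on the Chow groups of `A × Z` in the usual way, there are products
`D j` of `deg j` divisor classes on `A`, finitely many, such that for all direct summands `(Z, e)` of
the noncommutative motive of `Z`: the Kunneth formula
`K_0(A × Z, 1 × e)_ℚ = ⨁ D j × K_0(Z, e)_ℚ` holds, the same for the kernels of the Euler
pairings, and the Euler pairing of `K_0(A × Z, 1 × e)_ℚ` is nondegenerate if and only if the
one of `K_0(Z, e)_ℚ` is. -/
def NCNumReduces (P : ℚ[X] → Prop) (q : ℕ) {I : Type} (f : I → ℤ[X]) :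
    Prop :=
  ∀ (k : Type) [Field k] (𝒱 : VarClass k) (C : TheoryData.{0, 0, 0} 𝒱 ℚ) [IsChow C],
    IsoInvariant C → ∀ (F : Type) [Field F] [IsAlgClosed F] [CharZero F]
    (H : WeilTheoryData.{0, 0, 0} C F) [IsWeil H] (s : ℕ) (A Z : 𝒱.Obj) (πA : A ⟶ A)
    (πZ : Z ⟶ Z), IsNilPairFor H P q s f πA πZ → IsFrobenius C (prodMap πA πZ) (q ^ s) →
      ∃ (J : Type) (_ : Fintype J) (deg : J → ℕ) (D : J → C.A A),
        (∀ j, DivisorProduct C (deg j) (D j)) ∧ ∀ e : C.A (Z.prod Z), IsIdempotent C e →
          KZeroKunneth H A e D ∧ (IsNondegenerate H (relative C A e) ↔ IsNondegenerate H e)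

/-- `NCTateReduces P q f`: for the Chow groups `C` with rational coefficients of all classes `𝒱` of
varieties over fields `k` (finite, in the intended use), every Weil cohomology theory `H` with
coefficients in an algebraically closed field `F` of characteristic zero and all `A`, `Z` as in
`IsPairFor`, where `πA × πZ` acts on the Chow groups of `A × Z` in the usual way, there are products
`D j` of `deg j` divisor classes on `A`, finitely many, such that the following holds for all direct
summands `(Z, e)` of the noncommutative motive of `Z`: the Kunneth formula for the Frobenius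
invariants in the cohomology of `(A × Z, 1 × e)` holds, and the Tate conjecture holds for
`(A × Z, 1 × e)` if and only if it holds for `(Z, e)`. -/
def NCTateReduces (P : ℚ[X] → Prop) (q : ℕ) {I : Type} (f : I → ℤ[X]) :
    Prop :=
  ∀ (k : Type) [Field k] (𝒱 : VarClass k) (C : TheoryData.{0, 0, 0} 𝒱 ℚ) [IsChow C],
    IsoInvariant C → ∀ (F : Type) [Field F] [IsAlgClosed F] [CharZero F]
    (H : WeilTheoryData.{0, 0, 0} C F) [IsWeil H] (s : ℕ) (A Z : 𝒱.Obj) (πA : A ⟶ A)
    (πZ : Z ⟶ Z), IsPairFor H P q s f πA πZ →
      ∃ (J : Type) (_ : Fintype J) (deg : J → ℕ) (D : J → C.A A),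
        (∀ j, DivisorProduct C (deg j) (D j)) ∧ ∀ e : C.A (Z.prod Z), IsIdempotent C e →
          TateKunneth H πA πZ (q ^ s) e D ∧
            (NCTateConjecture H (prodMap πA πZ) (q ^ s) (relative C A e) ↔
              NCTateConjecture H πZ (q ^ s) e)

/-- `WeightReduces P q f`: the following holds for the Chow groups `C` with rational coefficients of
all classes `𝒱` of varieties over fields `k` (finite, in the intended use), every Weil cohomology
theory `H` with coefficients in an algebraically closed field `F` of characteristic zero and all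
`A`, `Z` as in `IsNilPairFor`, where the Frobenius endomorphism `πA × πZ` of `A × Z` acts on its Chow
groups in the usual way. There are products `D j` of `deg j` divisor classes on `A`, finitely many,
such that for the higher Chow groups `T m`, `m ≥ 0`, the Kunneth formula
`CH^i(A × Z, m)_ℚ = ⨁ D j × CH^(i - deg j)(Z, m)_ℚ` holds for all `i`, and for every `n`
Parshin's conjecture holds for `A × Z` in weight `n` if and only if it holds for `Z` in all weights
`l` with `n - dim A ≤ l ≤ n`. -/
def WeightReduces (P : ℚ[X] → Prop) (q : ℕ) {I : Type} (f : I → ℤ[X]) :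
    Prop :=
  ∀ (k : Type) [Field k] (𝒱 : VarClass k) (C : TheoryData.{0, 0, 0} 𝒱 ℚ) [IsChow C]
    (F : Type) [Field F] [IsAlgClosed F] [CharZero F] (H : WeilTheoryData.{0, 0, 0} C F)
    [IsWeil H] (s : ℕ) (A Z : 𝒱.Obj) (πA : A ⟶ A) (πZ : Z ⟶ Z),
      IsNilPairFor H P q s f πA πZ → IsFrobenius C (prodMap πA πZ) (q ^ s) →
        ∃ (J : Type) (_ : Fintype J) (deg : J → ℕ) (D : J → C.A A),
          (∀ j, DivisorProduct C (deg j) (D j)) ∧ ∀ T : ℕ → MotivicData C,
            IsHigherChow T (prodMap πA πZ) (q ^ s) → (∀ m, HasKunneth (T m) A Z deg D) ∧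
              ∀ n : ℤ, ParshinIn T (A.prod Z) n ↔
                ∀ l : ℤ, n - A.dim ≤ l → l ≤ n → ParshinIn T Z l

/-- `BeilinsonReduces P q f`: the following holds for the Chow groups `C` with rational coefficients
of all classes `𝒱` of varieties over fields `k` (finite, in the intended use), every Weil cohomology
theory `H` with coefficients in an algebraically closed field `F` of characteristic zero and all
`A`, `Z` as in `IsNilPairFor`, where the Frobenius endomorphism `πA × πZ` of `A × Z` acts on its Chow
groups in the usual way, for the higher Chow groups `T m`, `m ≥ 0`, and for all `n`: Beilinson's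
conjecture holds for `A × Z` in weight `n` if and only if it holds for `Z` in all weights `l` with
`n - dim A ≤ l ≤ n`; the same for the injectivity of the map `F ⊗ CH^n(A × Z) → H(A × Z)`
alone. -/
def BeilinsonReduces (P : ℚ[X] → Prop) (q : ℕ) {I : Type} (f : I → ℤ[X]) :
    Prop :=
  ∀ (k : Type) [Field k] (𝒱 : VarClass k) (C : TheoryData.{0, 0, 0} 𝒱 ℚ) [IsChow C]
    (F : Type) [Field F] [IsAlgClosed F] [CharZero F] (H : WeilTheoryData.{0, 0, 0} C F)
    [IsWeil H] (s : ℕ) (A Z : 𝒱.Obj) (πA : A ⟶ A) (πZ : Z ⟶ Z),
      IsNilPairFor H P q s f πA πZ → IsFrobenius C (prodMap πA πZ) (q ^ s) →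
        ∀ T : ℕ → MotivicData C, IsHigherChow T (prodMap πA πZ) (q ^ s) → ∀ n : ℤ,
          (BeilinsonIn H T (A.prod Z) n ↔
            ∀ l : ℤ, n - A.dim ≤ l → l ≤ n → BeilinsonIn H T Z l) ∧
          (CycleMapInjective H (A.prod Z) n ↔
            ∀ l : ℤ, n - A.dim ≤ l → l ≤ n → CycleMapInjective H Z l)

/-- `RatNumReduces P q f`: the following holds for the Chow groups `C` with rational coefficients of
all classes `𝒱` of varieties over fields `k` (finite, in the intended use), every Weil cohomology
theory `H` with coefficients in an algebraically closed field `F` of characteristic zero, all `A`,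
`Z` as in `IsNilPairFor` where the Frobenius endomorphism `πA × πZ` acts on the Chow groups of `A × Z` in
the usual way: the Kunneth formula holds for the Chow groups of `A × Z`, and for all `c` rational and
numerical equivalence coincide for cycles of codimension `c` on `A × Z` if and only if they coincide
for cycles of codimension `c - i` on `Z` for all `0 ≤ i ≤ dim A`; the same for rational and
homological equivalence. -/
def RatNumReduces (P : ℚ[X] → Prop) (q : ℕ) {I : Type} (f : I → ℤ[X]) :
    Prop :=
  ∀ (k : Type) [Field k] (𝒱 : VarClass k) (C : TheoryData.{0, 0, 0} 𝒱 ℚ) [IsChow C]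
    (F : Type) [Field F] [IsAlgClosed F] [CharZero F] (H : WeilTheoryData.{0, 0, 0} C F)
    [IsWeil H] (s : ℕ) (A Z : 𝒱.Obj) (πA : A ⟶ A) (πZ : Z ⟶ Z),
      IsNilPairFor H P q s f πA πZ → IsFrobenius C (prodMap πA πZ) (q ^ s) →
        ChowKunneth C A Z ∧ ∀ c : ℕ,
          (RatNumIn H (A.prod Z) c ↔ ∀ i ≤ A.dim, i ≤ c → RatNumIn H Z (c - i)) ∧
          (RatHomIn H (A.prod Z) c ↔ ∀ i ≤ A.dim, i ≤ c → RatHomIn H Z (c - i))

end Pool.Agent.Q64.P
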