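import Mathlib
import Pool.Agent.Q64.P.Defs
import Pool.Agent.Q64.CT.Weights
import Pool.Agent.Q64.CT.RatNum

/-!
# Products of abelian varieties with varieties whose Frobenius eigenvalues have a given property: the
proofs
-/

set_option autoImplicit false
set_option linter.unusedSectionVars false
set_option linter.unusedVariables false

open CategoryTheory AlgebraicGeometry

universe u v w

namespace Pool.Agent.Q64.P

open Module Polynomial NumberField Pool.Agent.H914 Pool.Agent.H914.VarClass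
  Pool.Agent.H914.VarClass.Obj Pool.Agent.W492.BB Pool.Agent.W550.Corr Pool.Agent.W484.CK
  Pool.Agent.Y1.CT Pool.Agent.W484.AA Pool.Agent.W484.TB Pool.Agent.Y1.KN Pool.Agent.Q64.CT
  Pool.Agent.Y122.NCP

/-- The complex roots of the polynomial have the property `R`. -/
def RootsIn (R : ℂ → Prop) (χ : ℚ[X]) : Prop := ∀ ρ : ℂ, aeval ρ χ = 0 → R ρ

section

variable {I : Type} {q : ℕ} (hq : 1 < q) {f : I → ℤ[X]} {R : ℂ → Prop} (hR : NoRel f q R)

include hq hR

theorem weightsReduce : WeightsReduce (RootsIn R) q f := by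
  intro k _ 𝒱 C _ F _ _ _ H _ s A Z πA πZ hsit
  obtain ⟨J, hJ, deg, D, E', hdual, hD, hK⟩ := kunneth_main hq hR
    (isStandard_bridge hsit.standard) hsit.pos (isAbelian_bridge hsit.abelian)
    (πZ := πZ) hsit.eigen (nilpotence_bridge hsit.nilpotence)
  refine ⟨J, hJ, deg, D, hD, fun T hT hπ => ?_⟩
  have h1 : W484.CH.HasKunneth (toCorr T) A Z deg D := W484.CH.hasKunneth_of hdual
    (toCorr_isCorrTheory hT) (hK (toCorr T) (toCorr_isCorrTheory hT) (toCorr_actsAsPower hπ))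
  refine ⟨h1, fun n => ?_⟩
  rw [vanishes_iff, vanishes_iff]
  exact W484.CH.vanish_iff (toCorr_isCorrTheory hT) h1 n

theorem parshinReduces : ParshinReduces (RootsIn R) q f := by
  intro k _ 𝒱 C _ F _ _ _ H _ s A Z πA πZ hsit
  obtain ⟨J, hJ, deg, D, hD, hT⟩ := weightsReduce hq hR k 𝒱 C F H s A Z πA πZ hsit
  refine ⟨J, hJ, deg, D, hD, fun T hK hπ => ?_⟩
  obtain ⟨h1, h2⟩ := hT T hK.motivic hπ
  refine ⟨h1, ?_⟩
  rw [Y159.Par.parshin_iff hK, Y159.Par.parshin_iff hK]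
  exact forall_congr' h2

theorem ncParshinReduces : NCParshinReduces (RootsIn R) q f := by
  intro k _ 𝒱 C _ hI F _ _ _ H _ s A Z πA πZ hsit
  obtain ⟨J, hJ, deg, D, E', hne, hdual, hD, hE, hK⟩ := kunneth_both hq hR
    (isStandard_bridge hsit.standard) hsit.pos (isAbelian_bridge hsit.abelian)
    (πZ := πZ) hsit.eigen (nilpotence_bridge hsit.nilpotence)
  have key : ∀ T : MotivicData C, IsMotivic T → T.IsExhausted →
      ActsAsPower T (prodMap πA πZ) (q ^ s) → ∀ e : C.A (Z.prod Z), IsIdempotent C e →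
        T.KunnethFor A e D ∧ (T.Trivial (relative C A e) ↔ T.Trivial e) := by
    intro T hT hex hπ e _
    have hT' := fun i m hm => (hK (toCorr T) (toCorr_isCorrTheory hT)
      (toCorr_actsAsPower hπ) i m hm).1
    exact ⟨kunnethFor_of hI hT hdual hex hT' e, trivial_iff hI hT hdual hex hT' e⟩
  refine ⟨J, hJ, deg, D, hD, fun T hT e he => ⟨fun n => ?_, ?_⟩⟩
  · exact (key (T n) (hT.motivic n) (hT.exhausted n) (hT.frobenius n) e he).1
  · refine forall_congr' fun n => forall_congr' fun _ => ?_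
    exact (key (T n) (hT.motivic n) (hT.exhausted n) (hT.frobenius n) e he).2

theorem ncNumReduces : NCNumReduces (RootsIn R) q f := by
  intro k _ 𝒱 C _ hI F _ _ _ H _ s A Z πA πZ hsit hF
  obtain ⟨J, hJ, deg, D, E', hne, hdual, hD, hE, hK⟩ := kunneth_both hq hR
    (isStandard_bridge hsit.standard) hsit.pos (isAbelian_bridge hsit.abelian)
    (πZ := πZ) hsit.eigen (nilpotence_bridge hsit.nilpotence)
  have hT' := fun i m hm => (hK (toCorr (chowMot C)) (toCorr_isCorrTheory chowMot_isMotivic)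
    (toCorr_actsAsPower (chowMot_actsAsPower hF)) i m hm).1
  exact ⟨J, hJ, deg, D, hD, fun e _ => ⟨kzeroKunneth_of hdual hI hT' e,
    nondegenerate_iff hdual hI hT' e⟩⟩

theorem ncTateReduces : NCTateReduces (RootsIn R) q f := by
  intro k _ 𝒱 C _ hI F _ _ _ H _ s A Z πA πZ hsit
  obtain ⟨J, hJ, deg, D, E', hne, hdual, hD, hE, hK⟩ := kunneth_eigen hq hR
    (isStandard_bridge hsit.standard) hsit.pos (isAbelian_bridge hsit.abelian)
    (πZ := πZ) hsit.eigen
  have hK' := fun i w hw => (hK i w hw).1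
  have hQ : q ^ s ≠ 0 := pow_ne_zero _ (by omega)
  have hπA := isFrobenius_bridge hsit.abelian.frobenius
  exact ⟨J, hJ, deg, D, hD, fun e he => ⟨tateKunneth_of hI hdual hQ hπA hK' e,
    ncTate_iff hI hdual hQ hπA hK' he⟩⟩

theorem perfectReduces : PerfectReduces (RootsIn R) q f := by
  intro k _ 𝒱 C _ F _ _ _ H _ s A Z πA πZ hsit hF
  obtain ⟨J, hJ, deg, D, E', hdual, hD, hK⟩ := kunneth_main hq hR
    (isStandard_bridge hsit.standard) hsit.pos (isAbelian_bridge hsit.abelian)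
    (πZ := πZ) hsit.eigen (nilpotence_bridge hsit.nilpotence)
  have h1 : W484.CH.HasKunneth (W484.CH.chowData C) A Z deg D := W484.CH.hasKunneth_of hdual
    W484.CH.chowData_isCorrTheory (hK (W484.CH.chowData C) W484.CH.chowData_isCorrTheory
      (W484.CH.chowData_actsAsPower (isFrobenius_bridge hF)))
  refine ⟨⟨J, hJ, deg, D, hD, fun i y hy => ?_⟩, fun n => ?_⟩
  · obtain ⟨z, ⟨hz1, hz2⟩, hz3⟩ := h1 i y hy
    have h2 : ∀ z' : J → C.A Z, ∑ j, times C (D j) (z' j) =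
        ∑ j, (W484.CH.chowData C).act (W484.CH.extBy C Z (D j)) (z' j) := fun z' =>
      Finset.sum_congr rfl fun j _ => (W484.CH.act_extBy C (D j) (z' j)).symm
    refine ⟨z, ⟨hz1, ?_⟩, fun z' hz' => hz3 z' ⟨hz'.1, ?_⟩⟩
    · rw [h2 z]
      exact hz2
    · rw [← h2 z']
      exact hz'.2
  · exact Y154.BQ.perfectIn_prod_iff' (isStandard_bridge hsit.standard) hdual h1 hD n

theorem core_all (k : Type) [Field k] (𝒱 : VarClass k) (C : TheoryData.{0, 0, 0} 𝒱 ℚ) [IsChow C]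
    (F : Type) [Field F] [IsAlgClosed F] [CharZero F] (H : WeilTheoryData.{0, 0, 0} C F)
    [IsWeil H] (s : ℕ) (A Z : 𝒱.Obj) (πA : A ⟶ A) (πZ : Z ⟶ Z)
    (hsit : IsNilPairFor H (RootsIn R) q s f πA πZ) (hF : IsFrobenius C (prodMap πA πZ) (q ^ s)) :
    ∃ (J : Type) (_ : Fintype J) (deg : J → ℕ) (D : J → C.A A),
      (∀ j, DivisorProduct C (deg j) (D j)) ∧
      (∀ n : ℤ, CycleMapInjective H (A.prod Z) n ↔
        ∀ l : ℤ, n - A.dim ≤ l → l ≤ n → CycleMapInjective H Z l) ∧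
      (∀ n : ℤ, PerfectAt C (A.prod Z) n ↔ ∀ m : ℤ, n - A.dim ≤ m → m ≤ n → PerfectAt C Z m) ∧
      ∀ T : ℕ → MotivicData C,
        IsHigherChow T (prodMap πA πZ) (q ^ s) → (∀ m, HasKunneth (T m) A Z deg D) ∧
          ∀ n : ℤ, ParshinIn T (A.prod Z) n ↔
            ∀ l : ℤ, n - A.dim ≤ l → l ≤ n → ParshinIn T Z l := by
  obtain ⟨J, hJ, deg, D, E', hdual, hD, hK⟩ := kunneth_main hq hR
    (isStandard_bridge hsit.standard) hsit.pos (isAbelian_bridge hsit.abelian)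
    (πZ := πZ) hsit.eigen (nilpotence_bridge hsit.nilpotence)
  have hS := isStandard_bridge hsit.standard
  have h1 : W484.CH.HasKunneth (W484.CH.chowData C) A Z deg D := W484.CH.hasKunneth_of hdual
    W484.CH.chowData_isCorrTheory (hK (W484.CH.chowData C) W484.CH.chowData_isCorrTheory
      (W484.CH.chowData_actsAsPower (isFrobenius_bridge hF)))
  have hdeg : ∀ l ≤ A.dim, ∃ j, deg j = l := fun l hl =>
    Y154.BQ.exists_deg_eq hS hdual h1 hD hl
  refine ⟨J, hJ, deg, D, hD, fun n => inj_iff hdual hdeg h1 n,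
    fun n => Y154.BQ.perfectIn_prod_iff' hS hdual h1 hD n, fun T hT => ?_⟩
  have h2 : ∀ m, W484.CH.HasKunneth (toCorr (T m)) A Z deg D := fun m =>
    W484.CH.hasKunneth_of hdual (toCorr_isCorrTheory (hT.motivic m))
      (hK (toCorr (T m)) (toCorr_isCorrTheory (hT.motivic m))
        (toCorr_actsAsPower (hT.frobenius m)))
  refine ⟨h2, fun n => ?_⟩
  have h3 : ∀ m, (∀ x : (T m).M (A.prod Z), (T m).Deg n x → x = 0) ↔
      ∀ l : ℤ, n - A.dim ≤ l → l ≤ n → ∀ z : (T m).M Z, (T m).Deg l z → z = 0 := fun m =>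
    vanish_at_iff hdual hdeg (toCorr_isCorrTheory (hT.motivic m)) (h2 m) n
  constructor
  · intro h l hl1 hl2 m hm
    exact (h3 m).1 (h m hm) l hl1 hl2
  · intro h m hm
    exact (h3 m).2 fun l hl1 hl2 => h l hl1 hl2 m hm

theorem weightReduces : WeightReduces (RootsIn R) q f := by
  intro k _ 𝒱 C _ F _ _ _ H _ s A Z πA πZ hsit hF
  obtain ⟨J, hJ, deg, D, hD, -, -, h⟩ := core_all hq hR k 𝒱 C F H s A Z πA πZ hsit hF
  exact ⟨J, hJ, deg, D, hD, h⟩

theorem beilinsonReduces : BeilinsonReduces (RootsIn R) q f := by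
  intro k _ 𝒱 C _ F _ _ _ H _ s A Z πA πZ hsit hF T hT n
  obtain ⟨J, hJ, deg, D, hD, h1, -, h⟩ := core_all hq hR k 𝒱 C F H s A Z πA πZ hsit hF
  obtain ⟨-, h2⟩ := h T hT
  refine ⟨?_, h1 n⟩
  unfold BeilinsonIn
  rw [h1 n, h2 n]
  constructor
  · rintro ⟨h3, h4⟩ l hl1 hl2
    exact ⟨h3 l hl1 hl2, h4 l hl1 hl2⟩
  · intro h3
    exact ⟨fun l hl1 hl2 => (h3 l hl1 hl2).1, fun l hl1 hl2 => (h3 l hl1 hl2).2⟩

theorem pairingReduces : PairingReduces (RootsIn R) q f := by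
  intro k _ 𝒱 C _ F _ _ _ H _ s A Z πA πZ hsit hF T hT n
  obtain ⟨J, hJ, deg, D, hD, -, h1, h⟩ := core_all hq hR k 𝒱 C F H s A Z πA πZ hsit hF
  obtain ⟨-, h2⟩ := h T hT
  have hdim : ((A.prod Z).dim : ℤ) = A.dim + Z.dim := by
    rw [Obj.dim_prod]; push_cast; ring
  unfold PairingIn
  rw [h1 n, h2 n, h2 ((A.prod Z).dim - n)]
  constructor
  · rintro ⟨h3, h4, h5⟩ l hl1 hl2
    exact ⟨h3 l hl1 hl2, h4 l hl1 hl2, h5 _ (by omega) (by omega)⟩
  · intro h3
    refine ⟨fun l hl1 hl2 => (h3 l hl1 hl2).1, fun l hl1 hl2 => (h3 l hl1 hl2).2.1,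
      fun l hl1 hl2 => ?_⟩
    have h4 := (h3 (Z.dim - l) (by omega) (by omega)).2.2
    rwa [sub_sub_cancel] at h4

theorem ratNumReduces : RatNumReduces (RootsIn R) q f := by
  intro k _ 𝒱 C _ F _ _ _ H _ s A Z πA πZ hsit hF
  refine ⟨(perfectReduces hq hR k 𝒱 C F H s A Z πA πZ hsit hF).1, ?_⟩
  obtain ⟨J, hJ, deg, D, E', hdual, hD, hK⟩ := kunneth_main hq hR
    (isStandard_bridge hsit.standard) hsit.pos (isAbelian_bridge hsit.abelian)
    (πZ := πZ) hsit.eigen (nilpotence_bridge hsit.nilpotence)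
  have h1 : W484.CH.HasKunneth (W484.CH.chowData C) A Z deg D := W484.CH.hasKunneth_of hdual
    W484.CH.chowData_isCorrTheory (hK (W484.CH.chowData C) W484.CH.chowData_isCorrTheory
      (W484.CH.chowData_actsAsPower (isFrobenius_bridge hF)))
  have hdeg : ∀ l ≤ A.dim, ∃ j, deg j = l := fun l hl =>
    Y154.BQ.exists_deg_eq (isStandard_bridge hsit.standard) hdual h1 hD hl
  exact fun c => ⟨ratNumIn_prod_iff hdual hdeg h1 c, ratHomIn_prod_iff hdual hdeg h1 c⟩

end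

end Pool.Agent.Q64.P
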