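import Mathlib
import Pool.Agent.Q64.P.Thms
import Pool.Agent.Q64.L.Pairs
import Pool.Agent.Q64.L.InstC
import Pool.Agent.Q70.SQ.Pair
import Pool.Agent.Q70.SQ.Ord
import Pool.Agent.Q70.HN.Times

/-!
# The abelian varieties and numbers of the second moment criterion are good
-/

set_option autoImplicit false

namespace Pool.Agent.Q64.P

open Polynomial NumberField Module Pool.Agent.Y1.CT Pool.Agent.Q64.L Pool.Agent.Y137.MV
  Pool.Agent.Y137.SL Pool.Agent.Q70.SQ Pool.Agent.Q70.HN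

theorem good_of_noRel {I : Type} {q : ℕ} {F : I → ℤ[X]} {R : ℂ → Prop} (h0 : ∀ ρ, R ρ → ρ ≠ 0)
    (hR : NoRel F q R) : Good (RootsIn R) q F where
  monic := hR.monic
  one := fun ρ hρ => by
    rw [map_sub, aeval_X, map_one, sub_eq_zero] at hρ
    rw [hρ]
    exact hR.one
  coeff := fun χ h h1 => by
    refine h0 0 (h 0 ?_) rfl
    rw [aeval_def, eval₂_at_zero, h1, map_zero]
  pair := fun L _ _ s hs χ hχ hrank ρ hρ =>
    exactPair_field F hR.monic q s χ hχ (fun ρ hρ => hR.pair s hs ρ (hrank ρ hρ)) ρ hρ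

theorem good_mono {P P' : ℚ[X] → Prop} {q : ℕ} {I : Type} {F : I → ℤ[X]} (hG : Good P' q F)
    (h : ∀ χ, P χ → P' χ) (h1 : P (X - 1)) : Good P q F where
  monic := hG.monic
  one := h1
  coeff := fun χ hχ => hG.coeff χ (h χ hχ)
  pair := fun K _ _ s hs χ hχ hP => hG.pair K s hs χ hχ (h χ hP)

theorem hodge_one {p a : ℕ} [Fact p.Prime] {P : ℕ → (ℕ → ℕ) → Prop}
    (hP : P 0 (fun i => if i = 0 then 1 else 0)) : HasHodgeNumbersWith p a P (X - 1) := by
  refine ⟨1, fun _ i => if i = 0 then 1 else 0, fun _ => X - 1, by simp, ?_⟩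
  intro w hw
  obtain rfl : w = 0 := by omega
  refine ⟨⟨?_, ?_, ?_⟩, hP⟩
  · rw [← C_1]
    exact X_sub_C_ne_zero 1
  · intro α hα
    rw [map_sub, aeval_X, map_one, sub_eq_zero] at hα
    rw [hα]
    simp
  · refine ⟨1, fun _ => 0, fun _ => 0, by simp, by simp, ?_, ?_, by simp, by simp⟩
    · rw [slopes]
      have h1 : (X - 1 : ℚ[X]).aroots (PadicAlgCl p) = {1} := by
        have h2 := aroots_X_sub_C (S := PadicAlgCl p) (1 : ℚ)
        rwa [C_1, map_one] at h2
      rw [h1]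
      simp
    · simp [hodgeSlopes]

variable {p a : ℕ} [Fact p.Prime] {I : Type} [Fintype I] {F : I → Type} [∀ i, Field (F i)]
  [∀ i, NumberField (F i)] [∀ i, IsCMField (F i)] {π : ∀ i, F i}

theorem weilDeviation_pos {E : Type} [Field E] [NumberField E] {x : E} (hx : x ≠ 0)
    (h : HasOtherSlope p a x) : 0 < weilDeviation p a x := by
  obtain ⟨τ, hτ⟩ := h
  have hint : IsIntegral ℚ x := Algebra.IsIntegral.isIntegral x
  have hm : minpoly ℚ x ≠ 0 := minpoly.ne_zero hint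
  rw [weilDeviation, meanSquare]
  have hdeg : (0 : ℝ) < (minpoly ℚ x).natDegree := by exact_mod_cast minpoly.natDegree_pos hint
  refine div_pos ?_ hdeg
  have hmem : τ x ∈ (minpoly ℚ x).aroots (PadicAlgCl p) := by
    rw [mem_aroots]
    refine ⟨hm, ?_⟩
    have h1 : aeval (τ.toRatAlgHom x) (minpoly ℚ x) = 0 := by
      rw [aeval_algHom_apply, minpoly.aeval, map_zero]
    exact h1
  have hnn : ∀ y ∈ ((minpoly ℚ x).aroots (PadicAlgCl p)).map
      (fun y => (Real.log ‖y‖ + a * Real.log p / 2) ^ 2), 0 ≤ y := by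
    intro y hy
    obtain ⟨z, -, rfl⟩ := Multiset.mem_map.1 hy
    exact sq_nonneg _
  have hle := Multiset.single_le_sum hnn _ (Multiset.mem_map_of_mem _ hmem)
  refine lt_of_lt_of_le ?_ hle
  refine sq_pos_of_ne_zero ?_
  intro h0
  apply hτ
  have hp0 : (0 : ℝ) < p := Nat.cast_pos.2 (Fact.out : p.Prime).pos
  have hx0 : 0 < ‖τ x‖ := norm_pos_iff.2 ((map_ne_zero_iff τ τ.injective).2 hx)
  have h1 : Real.log (‖τ x‖ ^ 2) = Real.log (((p : ℝ)⁻¹) ^ a) := by
    rw [Real.log_pow, Real.log_pow, Real.log_inv]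
    push_cast
    linarith
  have h2 := Real.log_injOn_pos (Set.mem_Ioi.2 (pow_pos hx0 2))
    (Set.mem_Ioi.2 (pow_pos (inv_pos.2 hp0) a)) h1
  rw [h2, norm_pow]
  congr 1
  have h3 : ‖(p : PadicAlgCl p)‖ = ‖(p : ℚ_[p])‖ := by
    rw [← PadicAlgCl.norm_extends, map_natCast]
  rw [h3, Padic.norm_p]

/-- The numbers with small mean square slope deviation. -/
theorem good_small (ha : 0 < a)
    (hw : ∀ i, π i * IsCMField.complexConj (F i) (π i) = (p : F i) ^ a)
    (habs : ∀ i, OddAbsolutelyIrreducible (F i))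
    (hun : ∀ i i', i ≠ i' → Pool.Agent.Y137.MV.Unrelated (F i) (F i'))
    (hns : ∀ i, HasOtherSlope p a (π i)) (f : I → ℤ[X]) (hf : ∀ i, IsPolyOf (π i) (f i)) :
    Good (GoodRoots p a π) (p ^ a) f :=
  good_of_noRel (fun _ h => h.1) (noRel_good ha hw habs hun hns f hf)

/-- Small Hodge numbers, ordinary Weil numbers. -/
theorem good_hodge (ha : 0 < a)
    (hw : ∀ i, π i * IsCMField.complexConj (F i) (π i) = (p : F i) ^ a)
    (habs : ∀ i, OddAbsolutelyIrreducible (F i))
    (hun : ∀ i i', i ≠ i' → Pool.Agent.Y137.MV.Unrelated (F i) (F i'))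
    (hord : ∀ i, IsOrdinary p a (π i)) (f : I → ℤ[X]) (hf : ∀ i, IsPolyOf (π i) (f i)) :
    Good (HasHodgeNumbersWith p a fun w h => ∀ i, SmallHodge w h (finrank ℚ (F i))) (p ^ a) f :=
  good_mono (good_small ha hw habs hun (fun i => other_of_ordinary ha (hord i)) f hf)
    (fun _ hχ => goodRoots_of_hodge ha (fun i => (habs i).1) (with_of_ordinary ha hord hχ))
    (hodge_one fun i => Or.inl (by simp [spread, finrank_pos]))

/-- Small Hodge numbers, Weil numbers which are not supersingular. -/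
theorem good_hodge' (ha : 0 < a)
    (hw : ∀ i, π i * IsCMField.complexConj (F i) (π i) = (p : F i) ^ a)
    (habs : ∀ i, OddAbsolutelyIrreducible (F i))
    (hun : ∀ i i', i ≠ i' → Pool.Agent.Y137.MV.Unrelated (F i) (F i'))
    (hns : ∀ i, HasOtherSlope p a (π i)) (f : I → ℤ[X]) (hf : ∀ i, IsPolyOf (π i) (f i)) :
    Good (HasHodgeNumbersWith p a fun w h => ∀ i, SmallFor p a π w h i) (p ^ a) f := by
  refine good_mono (good_small ha hw habs hun hns f hf)
    (fun _ hχ => goodRoots_of_hodge ha (fun i => (habs i).1) hχ) (hodge_one fun i => Or.inl ?_)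
  have hπ0 : π i ≠ 0 := by
    intro h0
    have h1 := hw i
    rw [h0, zero_mul] at h1
    exact pow_ne_zero a (Nat.cast_ne_zero.2 (Fact.out : p.Prime).ne_zero) h1.symm
  have h2 : spread 0 (fun i => if i = 0 then 1 else 0) = 0 := by simp [spread]
  rw [h2]
  have h3 : (0 : ℝ) < finrank ℚ (F i) := by exact_mod_cast finrank_pos
  have h4 := mul_pos h3 (weilDeviation_pos hπ0 (hns i))
  simpa using h4

end Pool.Agent.Q64.P
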