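import Mathlib
import Pool.Agent.Q64.P.Defs

/-!
# Products of abelian varieties with varieties whose Frobenius eigenvalues have a given property:
monotonicity
-/

set_option autoImplicit false

open CategoryTheory AlgebraicGeometry

universe u v w

namespace Pool.Agent.Q64.P

open Polynomial Pool.Agent.H914 Pool.Agent.H914.VarClass Pool.Agent.H914.VarClass.Obj
  Pool.Agent.W492.BB Pool.Agent.W484.CK Pool.Agent.Y1.CT Pool.Agent.Y122.NCP Pool.Agent.Q64.CT

section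

variable {k : Type u} [Field k] {𝒱 : VarClass k} {C : TheoryData.{u, v, 0} 𝒱 ℚ} {F : Type w}
  [Field F] {H : WeilTheoryData.{u, v, w} C F} {A Z : 𝒱.Obj} [CharZero F] {P P' : ℚ[X] → Prop}
  {q s : ℕ} {I : Type} {f : I → ℤ[X]} {πA : A ⟶ A} {πZ : Z ⟶ Z}

theorem EigenvaluesIn.mono (h : ∀ χ, P χ → P' χ) (hZ : EigenvaluesIn H P πZ) :
    EigenvaluesIn H P' πZ := by
  obtain ⟨χ, h1, h2, h3⟩ := hZ
  exact ⟨χ, h1, h2, h _ h3⟩

theorem IsNilPairFor.mono (h : ∀ χ, P χ → P' χ) (hs : IsNilPairFor H P q s f πA πZ) :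
    IsNilPairFor H P' q s f πA πZ :=
  ⟨hs.standard, hs.pos, hs.abelian, hs.eigen.mono h, hs.nilpotence⟩

theorem IsPairFor.mono (h : ∀ χ, P χ → P' χ) (hs : IsPairFor H P q s f πA πZ) :
    IsPairFor H P' q s f πA πZ :=
  ⟨hs.standard, hs.pos, hs.abelian, hs.eigen.mono h⟩

end

variable {P P' : ℚ[X] → Prop} (h : ∀ χ, P χ → P' χ) {q : ℕ} {I : Type} {f : I → ℤ[X]}

include h

theorem weightReduces_mono (hT : WeightReduces P' q f) : WeightReduces P q f :=
  fun k _ 𝒱 C _ F _ _ _ H _ s A Z πA πZ hs => hT k 𝒱 C F H s A Z πA πZ (hs.mono h)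

theorem beilinsonReduces_mono (hT : BeilinsonReduces P' q f) : BeilinsonReduces P q f :=
  fun k _ 𝒱 C _ F _ _ _ H _ s A Z πA πZ hs => hT k 𝒱 C F H s A Z πA πZ (hs.mono h)

theorem pairingReduces_mono (hT : PairingReduces P' q f) : PairingReduces P q f :=
  fun k _ 𝒱 C _ F _ _ _ H _ s A Z πA πZ hs => hT k 𝒱 C F H s A Z πA πZ (hs.mono h)

theorem ratNumReduces_mono (hT : RatNumReduces P' q f) : RatNumReduces P q f :=
  fun k _ 𝒱 C _ F _ _ _ H _ s A Z πA πZ hs => hT k 𝒱 C F H s A Z πA πZ (hs.mono h)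

theorem perfectReduces_mono (hT : PerfectReduces P' q f) : PerfectReduces P q f :=
  fun k _ 𝒱 C _ F _ _ _ H _ s A Z πA πZ hs => hT k 𝒱 C F H s A Z πA πZ (hs.mono h)

theorem parshinReduces_mono (hT : ParshinReduces P' q f) : ParshinReduces P q f :=
  fun k _ 𝒱 C _ F _ _ _ H _ s A Z πA πZ hs => hT k 𝒱 C F H s A Z πA πZ (hs.mono h)

theorem weightsReduce_mono (hT : WeightsReduce P' q f) : WeightsReduce P q f :=
  fun k _ 𝒱 C _ F _ _ _ H _ s A Z πA πZ hs => hT k 𝒱 C F H s A Z πA πZ (hs.mono h)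

theorem ncParshinReduces_mono (hT : NCParshinReduces P' q f) : NCParshinReduces P q f :=
  fun k _ 𝒱 C _ hI F _ _ _ H _ s A Z πA πZ hs => hT k 𝒱 C hI F H s A Z πA πZ (hs.mono h)

theorem ncNumReduces_mono (hT : NCNumReduces P' q f) : NCNumReduces P q f :=
  fun k _ 𝒱 C _ hI F _ _ _ H _ s A Z πA πZ hs => hT k 𝒱 C hI F H s A Z πA πZ (hs.mono h)

theorem ncTateReduces_mono (hT : NCTateReduces P' q f) : NCTateReduces P q f :=
  fun k _ 𝒱 C _ hI F _ _ _ H _ s A Z πA πZ hs => hT k 𝒱 C hI F H s A Z πA πZ (hs.mono h)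

end Pool.Agent.Q64.P
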